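import Pool.Agent.Helper965_Rud.Final

/-!
# A map of degree one which raises the Lusternik-Schnirelmann category

There are closed connected orientable topological manifolds `M`, `N` of dimension `21` and a map
`f : M → N` of degree one with `cat M ≤ 4` and `cat N ≥ 5`. This disproves the conjecture of
Y. Rudyak that a map of degree `±1` does not raise the Lusternik-Schnirelmann category.

Homology is integral singular homology `HH X n` (cycles modulo boundaries of singular chains), and
`hmap f n : HH X n → HH Y n` is the induced map.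

`N` is the quotient of the Stiefel manifold of unitary `2`-frames of `ℂ⁷ = ℍ³ ⊕ ℂ` by the right
multiplication of `Sp(1)` on `ℍ³`.
-/

set_option autoImplicit false

namespace Pool.Agent.Results.MP_89fcdb_gt.Rudyak

open Pool.Agent.Helper534.LS (HH hmap)

/-- The set `U` is contractible in `X`: the inclusion `U → X` is null-homotopic. -/
def ContractibleIn {X : Type} [TopologicalSpace X] (U : Set X) : Prop :=
  (⟨Subtype.val, continuous_subtype_val⟩ : C(U, X)).Nullhomotopic

/-- `X` is a union of `k + 1` open sets, each contractible in `X`. -/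
def CatAtMost (k : ℕ) (X : Type) [TopologicalSpace X] : Prop :=
  ∃ U : Fin (k + 1) → Set X, (∀ i, IsOpen (U i)) ∧ (∀ x, ∃ i, x ∈ U i) ∧ ∀ i, ContractibleIn (U i)

/-- The Lusternik-Schnirelmann category (normalised): the least `k` such that `X` is a union of
`k + 1` open sets, each contractible in `X` (and `⊤` if there is no such `k`). -/
noncomputable def LScat (X : Type) [TopologicalSpace X] : ℕ∞ :=
  ⨅ (k : ℕ) (_ : CatAtMost k X), (k : ℕ∞)

/-- `μ` is a generator of the infinite cyclic group `H_n(X; ℤ)`: for a closed connected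
`n`-manifold, a fundamental class. -/
def IsFundamentalClass (n : ℕ) (X : Type) [TopologicalSpace X] (μ : HH X n) : Prop :=
  ∀ x : HH X n, ∃! k : ℤ, x = k • μ

/-- `X` is a closed connected orientable topological `n`-manifold: compact, Hausdorff, second
countable, connected, locally homeomorphic to open subsets of `ℝ^n`, with a fundamental class
(`H_n(X; ℤ)` is infinite cyclic). -/
structure ClosedOrientableManifold (n : ℕ) (X : Type) [TopologicalSpace X] : Prop where
  compact : CompactSpace X
  hausdorff : T2Space X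
  secondCountable : SecondCountableTopology X
  connected : ConnectedSpace X
  locallyEuclidean : ∀ x : X, ∃ U : Set X, IsOpen U ∧ x ∈ U ∧
    ∃ V : Set (EuclideanSpace ℝ (Fin n)), IsOpen V ∧ Nonempty (U ≃ₜ V)
  orientable : ∃ μ : HH X n, IsFundamentalClass n X μ

/-- The map `f : X → Y` has degree `d` with respect to the classes `μ`, `ν` of degree `n`:
`f_* μ = d ν` in `H_n(Y; ℤ)`. -/
def HasDegree (n : ℕ) {X Y : Type} [TopologicalSpace X] [TopologicalSpace Y] (f : C(X, Y))
    (μ : HH X n) (ν : HH Y n) (d : ℤ) : Prop :=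
  hmap f n μ = d • ν

open Pool.Agent.Helper965_Rud in
theorem secondCountable_orb (X : Type) [TopologicalSpace X] [GSp X] [SecondCountableTopology X] :
    SecondCountableTopology (Orb X) := by
  exact isOpenQuotientMap_mk.isQuotientMap.secondCountableTopology isOpenMap_mk

theorem catAtMost_mono {k m : ℕ} (h : k ≤ m) {X : Type} [TopologicalSpace X]
    (hk : CatAtMost k X) : CatAtMost m X := by
  obtain ⟨U, h1, h2, h3⟩ := hk
  refine ⟨fun i => U ⟨min i k, by omega⟩, fun i => h1 _, fun x => ?_, fun i => h3 _⟩
  obtain ⟨i, hi⟩ := h2 x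
  refine ⟨⟨i, by omega⟩, ?_⟩
  have : (⟨min (i : ℕ) k, by omega⟩ : Fin (k + 1)) = i := Fin.ext (by simp; omega)
  simpa only [this] using hi

theorem isFundamentalClass_of_equiv {n : ℕ} {X : Type} [TopologicalSpace X] (e : HH X n ≃ₗ[ℤ] ℤ) :
    IsFundamentalClass n X (e.symm 1) := by
  intro x
  refine ⟨e x, ?_, fun k hk => ?_⟩
  · show x = e x • e.symm 1
    rw [← map_smul, smul_eq_mul, mul_one, LinearEquiv.symm_apply_apply]
  · simp only at hk
    rw [hk, ← map_smul, smul_eq_mul, mul_one, LinearEquiv.apply_symm_apply]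

theorem isFundamentalClass_map {n : ℕ} {X Y : Type} [TopologicalSpace X] [TopologicalSpace Y]
    (f : C(X, Y)) (hf : Function.Bijective (hmap f n)) {μ : HH X n}
    (h : IsFundamentalClass n X μ) : IsFundamentalClass n Y (hmap f n μ) := by
  intro y
  obtain ⟨x, rfl⟩ := hf.2 y
  obtain ⟨k, hk, huniq⟩ := h x
  refine ⟨k, ?_, fun m hm => huniq m (hf.1 ?_)⟩
  · show hmap f n x = k • hmap f n μ
    rw [← map_smul]
    exact congrArg _ hk
  · rw [map_smul]
    exact hm

open Pool.Agent.Helper965_Rud in
/-- There are closed connected orientable `21`-manifolds `M`, `N` with fundamental classes `μ`, `ν`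
and a map `f : M → N` of degree one, `f_* μ = ν`, such that `cat M ≤ 4` and `cat N ≥ 5`. -/
theorem result : ∃ (M N : Type) (_ : TopologicalSpace M) (_ : TopologicalSpace N) (f : C(M, N))
    (μ : HH M 21) (ν : HH N 21),
    ClosedOrientableManifold 21 M ∧ ClosedOrientableManifold 21 N ∧
    IsFundamentalClass 21 M μ ∧ IsFundamentalClass 21 N ν ∧ HasDegree 21 f μ ν 1 ∧
    LScat M ≤ 4 ∧ 5 ≤ LScat N := by
  obtain ⟨⟨-, ⟨eM⟩⟩, -, -⟩ := fin_top
  have hμ := isFundamentalClass_of_equiv eM
  have hν := isFundamentalClass_map fM fin_deg hμ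
  have _ := fin_pc.1
  have _ := fin_pc.2
  refine ⟨MM, NN, inferInstance, inferInstance, fM, eM.symm 1, hmap fM 21 (eM.symm 1), ?_, ?_, hμ, hν,
    (one_smul ℤ _).symm, ?_, ?_⟩
  · exact ⟨inferInstance, inferInstance, secondCountable_orb XM, inferInstance, fin_le.1, _, hμ⟩
  · exact ⟨inferInstance, inferInstance, secondCountable_orb XN, inferInstance, fin_le.2, _, hν⟩
  · exact iInf₂_le 4 fin_catM
  · refine le_iInf₂ fun k hk => ?_
    have h5 : 5 ≤ k := by
      by_contra hlt
      exact fin_catN (catAtMost_mono (by omega : k ≤ 4) hk)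
    exact_mod_cast h5

end Pool.Agent.Results.MP_89fcdb_gt.Rudyak
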